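import Pool.Agent.Q88.SCD.Main

/-!
MP_94cdcb_an, Q1 (positive answer): two hereditarily SCD sets whose Minkowski sum is not SCD.
-/

namespace Pool.Agent.Results.MP_94cdcb_an.SumNotSCD

open Q88.SCD Pointwise

theorem result :
    ∃ (X : Type) (_ : NormedAddCommGroup X) (_ : NormedSpace ℝ X) (_ : CompleteSpace X)
      (U₁ U₂ : Set X), U₁.Nonempty ∧ U₂.Nonempty ∧ Bornology.IsBounded U₁ ∧
        Bornology.IsBounded U₂ ∧ HereditarilySCD U₁ ∧ HereditarilySCD U₂ ∧ ¬ IsSCD (U₁ + U₂) :=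
  exists_sum_not_scd

end Pool.Agent.Results.MP_94cdcb_an.SumNotSCD
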